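import Pool.Agent.Helper640.PDS.Main

/-!
# Maximum proportionally dense subgraphs are NP-hard to find in all four classes

A set `S` of vertices of a graph `G` is a proportionally dense subgraph (PDS) if
`2 ≤ |S| ≤ |V| - 1` and `d_S(v) / (|S| - 1) ≥ d_{V \ S}(v) / |V \ S|` for all `v ∈ S`.

* Graphs with `Δ(G) = h(G) = 3`.  In a connected graph with `3g + 1` vertices and maximum degree 3,
  a PDS with at least `2g + 1` vertices has exactly `2g + 1` vertices, and a set of that size is a
  PDS if and only if each of its vertices of degree at most 2 has all its neighbours in the set and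
  each of its vertices of degree 3 at least two of them.  So in a subdivision of a graph one chooses
  a part of minimum degree 2 with a prescribed total length; exact cover by 3-sets is encoded in
  the choice.
* Graphs with `Δ(co-G) = h(co-G) = d`, `d ≥ 3`.  If `co-G` has many isolated vertices, then the large
  PDSs of `G` are the complements of the small sets dominating all non-isolated vertices of `co-G`;
  exact cover by 3-sets is encoded in the domination problem of a graph of maximum degree 3, to which
  `d` stars with `d` leaves are added.
-/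

namespace Pool.Agent.Results.MP_9a7af0_lc.MaxPDSHard

open Pool.Agent.H640.PDS Pool.Agent.H692R2 Pool.Agent.H673R2

/-- **MaxPDS and connected MaxPDS are NP-hard** (as decision problems with input `(G, k)`, under
polynomial-time many-one reductions) on graphs `G` with `Δ(G) = h(G) = 3`, and, for every `d ≥ 3`,
on graphs `G` whose complement `co-G` satisfies `Δ(co-G) = h(co-G) = d`. -/
theorem result :
    (NPHardOn (fun I : FinGraph × ℕ => MaxDegEq I.1.graph 3 ∧ HIndexEq I.1.graph 3) MaxPDS ∧
      NPHardOn (fun I : FinGraph × ℕ => MaxDegEq I.1.graph 3 ∧ HIndexEq I.1.graph 3)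
        MaxConnPDS) ∧
    ∀ d : ℕ, 3 ≤ d →
      NPHardOn (fun I : FinGraph × ℕ => MaxDegEq I.1.graphᶜ d ∧ HIndexEq I.1.graphᶜ d) MaxPDS ∧
      NPHardOn (fun I : FinGraph × ℕ => MaxDegEq I.1.graphᶜ d ∧ HIndexEq I.1.graphᶜ d)
        MaxConnPDS :=
  ⟨hard_three, fun d hd => hard_co d hd⟩

end Pool.Agent.Results.MP_9a7af0_lc.MaxPDSHard
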